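import Mathlib

/-!
# Budgeted sharing games with exponentially long best-response paths

Each agent has essentially two strategies: all the shared sites it is interested in, or one private
site, whose cost is its whole budget. Every shared site is interesting for at most two agents. The
agents are arranged in `K` levels `V, A, B, W, Y`; the agent `Y` of a level is connected with `V`
of the next level, and it changes its strategy twice as often as `Y` of the level before.
-/

set_option autoImplicit false
set_option linter.unusedSectionVars false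
set_option linter.unusedDecidableInType false
set_option linter.unusedFintypeInType false

open Finset

namespace Pool.Agent.Results.MP_2a1065_lc.ExponentialPath

/-- A budgeted sharing game with the set `U` of agents and the set `H` of sites. -/
structure SharingGame (U H : Type) where
  /-- the bipartite graph: `interested j i` if agent `j` is interested in the site `i` -/
  interested : U → H → Prop
  /-- the query rates -/
  rate : H → ℝ
  /-- the costs of the sites -/
  cost : H → ℝ
  /-- the budgets of the agents -/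
  budget : U → ℝ
  rate_pos : ∀ i, 0 < rate i
  cost_pos : ∀ i, 0 < cost i
  budget_pos : ∀ j, 0 < budget j

namespace SharingGame

variable {U H : Type} (g : SharingGame U H)

/-- `s` is a feasible strategy of the agent `j`. -/
def Feasible (j : U) (s : Finset H) : Prop :=
  (∀ i ∈ s, g.interested j i) ∧ ∑ i ∈ s, g.cost i ≤ g.budget j

/-- The number of agents that serve the site `i` in the state `S`. -/
noncomputable def load (S : U → Finset H) (i : H) : ℕ := {j | i ∈ S j}.ncard

/-- What the agent `j` receives in the state `S`. -/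
noncomputable def payoff (S : U → Finset H) (j : U) : ℝ :=
  ∑ i ∈ S j, g.rate i / load S i

/-- A best-response move: one agent `j` changes to a feasible strategy which maximises its payoff
over all its feasible strategies, and its payoff strictly increases. -/
def IsBestResponseMove (S S' : U → Finset H) : Prop :=
  ∃ j, (∀ k, k ≠ j → S' k = S k) ∧ g.Feasible j (S' j) ∧
    (∀ S'' : U → Finset H, (∀ k, k ≠ j → S'' k = S k) → g.Feasible j (S'' j) →
      g.payoff S'' j ≤ g.payoff S' j) ∧
    g.payoff S j < g.payoff S' j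

/-- There is a best-response path with `L` moves, starting from a state of feasible strategies. -/
def HasPath (L : ℕ) : Prop :=
  ∃ p : ℕ → U → Finset H, (∀ j, g.Feasible j (p 0 j)) ∧
    ∀ t < L, g.IsBestResponseMove (p t) (p (t + 1))

end SharingGame

/-! ### Games in which every agent has two strategies -/

section two

variable {U Ed : Type} [Fintype U] [DecidableEq U] [DecidableEq Ed]

/-- The game: `IN i` is the set of shared sites of agent `i`, `T i` the rate of its private site. -/
noncomputable def mkGame (IN : U → Finset Ed) (hIN : ∀ i, (IN i).Nonempty) (w : Ed → ℝ)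
    (hw : ∀ e, 0 < w e) (T : U → ℝ) (hT : ∀ i, 0 < T i) : SharingGame U (Ed ⊕ U) where
  interested i h := Sum.elim (fun e => e ∈ IN i) (fun j => i = j) h
  rate := Sum.elim (fun e => 2 * w e) T
  cost := Sum.elim (fun _ => 1) (fun i => ((IN i).card : ℝ))
  budget i := ((IN i).card : ℝ)
  rate_pos := by
    rintro (e | i)
    · exact mul_pos two_pos (hw e)
    · exact hT i
  cost_pos := by
    rintro (e | i)
    · exact one_pos
    · exact Nat.cast_pos.2 (hIN i).card_pos
  budget_pos i := Nat.cast_pos.2 (hIN i).card_pos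

/-- The state in which the agents `i` with `x i = true` use their shared sites. -/
def strat (IN : U → Finset Ed) (x : U → Bool) (i : U) : Finset (Ed ⊕ U) :=
  if x i then (IN i).map Function.Embedding.inl else {Sum.inr i}

/-- The number of the other agents at the site `e`. -/
noncomputable def oth (IN : U → Finset Ed) (x : U → Bool) (i : U) (e : Ed) : ℕ :=
  {k | k ≠ i ∧ x k = true ∧ e ∈ IN k}.ncard

/-- The payoff of agent `i` if it uses its shared sites. -/
noncomputable def PP (IN : U → Finset Ed) (w : Ed → ℝ) (x : U → Bool) (i : U) : ℝ :=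
  ∑ e ∈ IN i, 2 * w e / (1 + oth IN x i e)

variable {IN : U → Finset Ed} {hIN : ∀ i, (IN i).Nonempty} {w : Ed → ℝ} {hw : ∀ e, 0 < w e}
  {T : U → ℝ} {hT : ∀ i, 0 < T i}

theorem mem_strat_inl {x : U → Bool} {i : U} {e : Ed} :
    Sum.inl e ∈ strat IN x i ↔ x i = true ∧ e ∈ IN i := by
  unfold strat
  split_ifs with h <;> simp [h]

theorem mem_strat_inr {x : U → Bool} {i j : U} :
    Sum.inr j ∈ strat IN x i ↔ x i = false ∧ i = j := by
  unfold strat
  split_ifs with h
  · simp [h]
  · simp [h, eq_comm]

theorem payoff_priv {x : U → Bool} {i : U} {S : U → Finset (Ed ⊕ U)}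
    (hS : ∀ k, k ≠ i → S k = strat IN x k) (hi : S i = {Sum.inr i}) :
    (mkGame IN hIN w hw T hT).payoff S i = T i := by
  unfold SharingGame.payoff
  rw [hi, sum_singleton]
  have : SharingGame.load S (Sum.inr i) = 1 := by
    unfold SharingGame.load
    rw [Set.ncard_eq_one]
    refine ⟨i, ?_⟩
    ext k
    simp only [Set.mem_ofPred_eq, Set.mem_singleton_iff]
    constructor
    · intro h
      by_contra hk
      rw [hS k hk, mem_strat_inr] at h
      exact hk h.2
    · rintro rfl
      rw [hi]; simp
  rw [this]
  show T i / ((1 : ℕ) : ℝ) = T i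
  simp

theorem payoff_shared {x : U → Bool} {i : U} {S : U → Finset (Ed ⊕ U)}
    (hS : ∀ k, k ≠ i → S k = strat IN x k) {s : Finset Ed}
    (hi : S i = s.map Function.Embedding.inl) :
    (mkGame IN hIN w hw T hT).payoff S i = ∑ e ∈ s, 2 * w e / (1 + oth IN x i e) := by
  unfold SharingGame.payoff
  rw [hi, sum_map]
  refine sum_congr rfl fun e he => ?_
  have : SharingGame.load S (Sum.inl e) = 1 + oth IN x i e := by
    unfold SharingGame.load oth
    have h1 : {j | Sum.inl e ∈ S j} = insert i {k | k ≠ i ∧ x k = true ∧ e ∈ IN k} := by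
      ext k
      simp only [Set.mem_ofPred_eq, Set.mem_insert_iff]
      by_cases hk : k = i
      · subst hk
        rw [hi]
        simp [he]
      · rw [hS k hk, mem_strat_inl]
        simp [hk]
    rw [h1, Set.ncard_insert_of_notMem (by simp) (Set.toFinite _), add_comm]
  show 2 * w e / (SharingGame.load S (Sum.inl e) : ℝ) = _
  rw [this]
  push_cast
  rfl

theorem payoff_le {x : U → Bool} {i : U} {S : U → Finset (Ed ⊕ U)}
    (hS : ∀ k, k ≠ i → S k = strat IN x k)
    (hf : (mkGame IN hIN w hw T hT).Feasible i (S i)) :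
    (mkGame IN hIN w hw T hT).payoff S i ≤ max (PP IN w x i) (T i) := by
  by_cases hp : Sum.inr i ∈ S i
  · -- the private site excludes all the others
    have h1 : S i = {Sum.inr i} := by
      refine Finset.Subset.antisymm ?_ (Finset.singleton_subset_iff.2 hp)
      intro h hh
      rw [Finset.mem_singleton]
      by_contra hne
      have h2 : ∑ j ∈ ({Sum.inr i, h} : Finset (Ed ⊕ U)), (mkGame IN hIN w hw T hT).cost j ≤
          ∑ j ∈ S i, (mkGame IN hIN w hw T hT).cost j := by
        refine sum_le_sum_of_subset_of_nonneg ?_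
          (fun j _ _ => ((mkGame IN hIN w hw T hT).cost_pos j).le)
        intro j hj
        rw [Finset.mem_insert, Finset.mem_singleton] at hj
        rcases hj with rfl | rfl
        · exact hp
        · exact hh
      rw [sum_pair (Ne.symm hne)] at h2
      have h3 := hf.2
      have h4 := (mkGame IN hIN w hw T hT).cost_pos h
      have h5 : (mkGame IN hIN w hw T hT).cost (Sum.inr i) = (mkGame IN hIN w hw T hT).budget i :=
        rfl
      linarith
    rw [payoff_priv hS h1]
    exact le_max_right _ _
  · -- all the sites are shared sites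
    obtain ⟨s, hs, hsub⟩ : ∃ s : Finset Ed, S i = s.map Function.Embedding.inl ∧ s ⊆ IN i := by
      refine ⟨(IN i).filter (fun e => Sum.inl e ∈ S i), ?_, Finset.filter_subset _ _⟩
      ext h
      rcases h with e | j
      · simp only [Finset.mem_map, Finset.mem_filter, Function.Embedding.inl_apply,
          Sum.inl.injEq, exists_eq_right]
        constructor
        · intro h
          exact ⟨hf.1 _ h, h⟩
        · exact fun h => h.2
      · simp only [Finset.mem_map, Finset.mem_filter, Function.Embedding.inl_apply,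
          reduceCtorEq, and_false, exists_false, iff_false]
        intro h
        have : i = j := hf.1 _ h
        subst this
        exact hp h
    rw [payoff_shared hS hs]
    refine le_trans ?_ (le_max_left _ _)
    refine sum_le_sum_of_subset_of_nonneg hsub fun e _ _ => ?_
    have := hw e
    positivity

theorem feasible_strat (x : U → Bool) (i : U) :
    (mkGame IN hIN w hw T hT).Feasible i (strat IN x i) := by
  unfold strat
  split_ifs with h
  · refine ⟨?_, ?_⟩
    · intro j hj
      rw [Finset.mem_map] at hj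
      obtain ⟨e, he, rfl⟩ := hj
      exact he
    · rw [sum_map]
      show ∑ _e ∈ IN i, (1 : ℝ) ≤ ((IN i).card : ℝ)
      simp
  · refine ⟨?_, ?_⟩
    · intro j hj
      rw [Finset.mem_singleton] at hj
      subst hj
      rfl
    · rw [sum_singleton]
      exact le_refl _

theorem strat_update (x : U → Bool) (i : U) (b : Bool) (k : U) (hk : k ≠ i) :
    strat IN (Function.update x i b) k = strat IN x k := by
  unfold strat
  rw [Function.update_of_ne hk]

theorem move_up {x : U → Bool} {i : U} (hx : x i = false) (h : T i < PP IN w x i) :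
    (mkGame IN hIN w hw T hT).IsBestResponseMove (strat IN x)
      (strat IN (Function.update x i true)) := by
  have hP : (mkGame IN hIN w hw T hT).payoff (strat IN (Function.update x i true)) i =
      PP IN w x i :=
    payoff_shared (fun k hk => strat_update x i true k hk) (by unfold strat; simp)
  refine ⟨i, fun k hk => strat_update x i true k hk, feasible_strat _ _, ?_, ?_⟩
  · intro S hS hf
    rw [hP]
    exact (payoff_le hS hf).trans (le_of_eq (max_eq_left h.le))
  · rw [hP, payoff_priv (fun k _ => rfl) (by unfold strat; simp [hx])]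
    exact h

theorem move_down {x : U → Bool} {i : U} (hx : x i = true) (h : PP IN w x i < T i) :
    (mkGame IN hIN w hw T hT).IsBestResponseMove (strat IN x)
      (strat IN (Function.update x i false)) := by
  have hP : (mkGame IN hIN w hw T hT).payoff (strat IN (Function.update x i false)) i = T i :=
    payoff_priv (fun k hk => strat_update x i false k hk) (by unfold strat; simp)
  refine ⟨i, fun k hk => strat_update x i false k hk, feasible_strat _ _, ?_, ?_⟩
  · intro S hS hf
    rw [hP]
    exact (payoff_le hS hf).trans (le_of_eq (max_eq_right h.le))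
  · rw [hP, payoff_shared (fun k _ => rfl) (show strat IN x i = (IN i).map
      Function.Embedding.inl by unfold strat; simp [hx])]
    exact h

/-- The term of a site with another agent on it. -/
theorem term_le_of_busy (hw : ∀ e, 0 < w e) {x : U → Bool} {i k : U} {e : Ed} (hk : k ≠ i)
    (hx : x k = true) (he : e ∈ IN k) : 2 * w e / (1 + oth IN x i e) ≤ w e := by
  have h1 : 1 ≤ oth IN x i e := by
    unfold oth
    rw [Nat.one_le_iff_ne_zero, Ne, Set.ncard_eq_zero (Set.toFinite _)]
    exact Set.Nonempty.ne_empty ⟨k, hk, hx, he⟩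
  have h2 : (1 : ℝ) ≤ oth IN x i e := by exact_mod_cast h1
  rw [div_le_iff₀ (by linarith)]
  nlinarith [hw e]

theorem term_le (hw : ∀ e, 0 < w e) (x : U → Bool) (i : U) (e : Ed) :
    2 * w e / (1 + oth IN x i e) ≤ 2 * w e := by
  have h2 : (0 : ℝ) ≤ oth IN x i e := Nat.cast_nonneg _
  rw [div_le_iff₀ (by linarith)]
  nlinarith [hw e]

theorem term_ge (hw : ∀ e, 0 < w e) (x : U → Bool) (i : U) (e : Ed)
    (h2 : ∀ k k', k ≠ i → k' ≠ i → e ∈ IN k → e ∈ IN k' → k = k') :
    w e ≤ 2 * w e / (1 + oth IN x i e) := by
  have h1 : oth IN x i e ≤ 1 := by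
    unfold oth
    rw [Set.ncard_le_one (Set.toFinite _)]
    rintro a ⟨ha, _, ha'⟩ b ⟨hb, _, hb'⟩
    exact h2 a b ha hb ha' hb'
  have h3 : (oth IN x i e : ℝ) ≤ 1 := by exact_mod_cast h1
  have h4 : (0 : ℝ) ≤ oth IN x i e := Nat.cast_nonneg _
  rw [le_div_iff₀ (by linarith)]
  nlinarith [hw e]

theorem term_ge_of_free {x : U → Bool} {i : U} {e : Ed}
    (h2 : ∀ k, k ≠ i → e ∈ IN k → x k = false) :
    2 * w e ≤ 2 * w e / (1 + oth IN x i e) := by
  have h1 : oth IN x i e = 0 := by
    unfold oth
    rw [Set.ncard_eq_zero (Set.toFinite _)]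
    refine Set.eq_empty_of_forall_notMem ?_
    rintro k ⟨hk, hx, he⟩
    rw [h2 k hk he] at hx
    exact Bool.noConfusion hx
  rw [h1]
  simp

end two

/-! ### The network -/

/-- The kinds of agents of a level. -/
inductive Kd
  | V | A | B | W | Y
  deriving DecidableEq

instance : Fintype Kd := ⟨{Kd.V, Kd.A, Kd.B, Kd.W, Kd.Y}, by intro x; cases x <;> simp⟩

/-- The kinds of sites of a level. -/
inductive Sd
  | va | vb | bw | wy | ay
  deriving DecidableEq

instance : Fintype Sd := ⟨{Sd.va, Sd.vb, Sd.bw, Sd.wy, Sd.ay}, by intro x; cases x <;> simp⟩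

/-- The agents: the top agent `none` and five agents on each of the `K` levels. -/
abbrev Ag (K : ℕ) : Type := Option (Fin K × Kd)

/-- The shared sites: the links between the levels and five sites on each level. -/
abbrev Es (K : ℕ) : Type := Fin (K + 1) ⊕ (Fin K × Sd)

section network

variable {K : ℕ}

/-- The shared sites of an agent. -/
def INK (K : ℕ) : Ag K → Finset (Es K)
  | none => {Sum.inl 0}
  | some (l, Kd.V) => {Sum.inl l.castSucc, Sum.inr (l, Sd.va), Sum.inr (l, Sd.vb)}
  | some (l, Kd.A) => {Sum.inr (l, Sd.va), Sum.inr (l, Sd.ay)}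
  | some (l, Kd.B) => {Sum.inr (l, Sd.vb), Sum.inr (l, Sd.bw)}
  | some (l, Kd.W) => {Sum.inr (l, Sd.bw), Sum.inr (l, Sd.wy)}
  | some (l, Kd.Y) => {Sum.inr (l, Sd.wy), Sum.inr (l, Sd.ay), Sum.inl l.succ}

/-- Half of the rates of the shared sites. -/
noncomputable def wK (K : ℕ) : Es K → ℝ
  | Sum.inl l => 8 * 8 ^ (K - l.val)
  | Sum.inr (l, Sd.va) => 3 * 8 ^ (K - l.val)
  | Sum.inr (l, Sd.vb) => 4 * 8 ^ (K - l.val)
  | Sum.inr (l, Sd.bw) => 3 * 8 ^ (K - l.val)
  | Sum.inr (l, Sd.wy) => 2 * 8 ^ (K - l.val)
  | Sum.inr (l, Sd.ay) => 2 * 8 ^ (K - l.val)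

/-- The rates of the private sites. -/
noncomputable def TK (K : ℕ) : Ag K → ℝ
  | none => 1
  | some (l, Kd.V) => 22.5 * 8 ^ (K - l.val)
  | some (l, Kd.A) => 7.5 * 8 ^ (K - l.val)
  | some (l, Kd.B) => 10.5 * 8 ^ (K - l.val)
  | some (l, Kd.W) => 7.5 * 8 ^ (K - l.val)
  | some (l, Kd.Y) => 6.5 * 8 ^ (K - l.val)

theorem INK_nonempty (i : Ag K) : (INK K i).Nonempty := by
  rcases i with _ | ⟨l, k⟩
  · exact ⟨_, Finset.mem_singleton_self _⟩
  · cases k <;> exact ⟨_, Finset.mem_insert_self _ _⟩

theorem wK_pos (e : Es K) : 0 < wK K e := by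
  rcases e with l | ⟨l, k⟩
  · unfold wK; positivity
  · cases k <;> (unfold wK; positivity)

theorem TK_pos (i : Ag K) : 0 < TK K i := by
  rcases i with _ | ⟨l, k⟩
  · unfold TK; positivity
  · cases k <;> (unfold TK; positivity)

/-- The game. -/
noncomputable def gameK (K : ℕ) : SharingGame (Ag K) (Es K ⊕ Ag K) :=
  mkGame (INK K) INK_nonempty (wK K) wK_pos (TK K) TK_pos

theorem mem_link {j : Fin (K + 1)} {a : Ag K} : Sum.inl j ∈ INK K a ↔
    (a = none ∧ j.val = 0) ∨ (∃ l : Fin K, a = some (l, Kd.V) ∧ j.val = l.val) ∨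
      (∃ l : Fin K, a = some (l, Kd.Y) ∧ j.val = l.val + 1) := by
  rcases a with _ | ⟨l, k⟩
  · simp only [INK, Finset.mem_singleton, Sum.inl.injEq, true_and, reduceCtorEq, false_and,
      exists_false, or_false]
    exact ⟨fun h => by rw [h]; rfl, fun h => Fin.ext h⟩
  · cases k
    · simp only [INK, Finset.mem_insert, Finset.mem_singleton, Sum.inl.injEq, reduceCtorEq,
        or_false, false_and, false_or, Option.some.injEq, Prod.mk.injEq, and_true, and_false,
        exists_false, exists_eq_left']
      exact ⟨fun h => by rw [h]; rfl, fun h => Fin.ext h⟩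
    · simp [INK]
    · simp [INK]
    · simp [INK]
    · simp only [INK, Finset.mem_insert, Finset.mem_singleton, Sum.inl.injEq, reduceCtorEq,
        false_and, false_or, Option.some.injEq, Prod.mk.injEq, and_true, and_false,
        exists_false, exists_eq_left']
      exact ⟨fun h => by rw [h]; rfl, fun h => Fin.ext h⟩

theorem mem_va {l : Fin K} {a : Ag K} : Sum.inr (l, Sd.va) ∈ INK K a ↔
    a = some (l, Kd.V) ∨ a = some (l, Kd.A) := by
  rcases a with _ | ⟨l', k⟩
  · simp [INK]
  · cases k <;> simp [INK, eq_comm]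

theorem mem_vb {l : Fin K} {a : Ag K} : Sum.inr (l, Sd.vb) ∈ INK K a ↔
    a = some (l, Kd.V) ∨ a = some (l, Kd.B) := by
  rcases a with _ | ⟨l', k⟩
  · simp [INK]
  · cases k <;> simp [INK, eq_comm]

theorem mem_bw {l : Fin K} {a : Ag K} : Sum.inr (l, Sd.bw) ∈ INK K a ↔
    a = some (l, Kd.B) ∨ a = some (l, Kd.W) := by
  rcases a with _ | ⟨l', k⟩
  · simp [INK]
  · cases k <;> simp [INK, eq_comm]

theorem mem_wy {l : Fin K} {a : Ag K} : Sum.inr (l, Sd.wy) ∈ INK K a ↔
    a = some (l, Kd.W) ∨ a = some (l, Kd.Y) := by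
  rcases a with _ | ⟨l', k⟩
  · simp [INK]
  · cases k <;> simp [INK, eq_comm]

theorem mem_ay {l : Fin K} {a : Ag K} : Sum.inr (l, Sd.ay) ∈ INK K a ↔
    a = some (l, Kd.A) ∨ a = some (l, Kd.Y) := by
  rcases a with _ | ⟨l', k⟩
  · simp [INK]
  · cases k <;> simp [INK, eq_comm]

/-- At most one other agent at a site. -/
theorem atMostTwo {e : Es K} {i k k' : Ag K} (hi : e ∈ INK K i) (hki : k ≠ i) (hki' : k' ≠ i)
    (hk : e ∈ INK K k) (hk' : e ∈ INK K k') : k = k' := by
  rcases e with j | ⟨l, t⟩
  · rw [mem_link] at hi hk hk'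
    rcases hi with ⟨rfl, hj⟩ | ⟨l1, rfl, hj⟩ | ⟨l1, rfl, hj⟩ <;>
    rcases hk with ⟨rfl, h2⟩ | ⟨l2, rfl, h2⟩ | ⟨l2, rfl, h2⟩ <;>
    rcases hk' with ⟨rfl, h3⟩ | ⟨l3, rfl, h3⟩ | ⟨l3, rfl, h3⟩ <;>
    first
      | rfl
      | (exfalso; omega)
      | exact absurd rfl hki
      | exact absurd rfl hki'
      | exact congrArg (fun l => some (l, Kd.V)) (Fin.ext (by omega))
      | exact congrArg (fun l => some (l, Kd.Y)) (Fin.ext (by omega))
      | exact absurd (congrArg (fun l => some (l, Kd.V)) (Fin.ext (by omega))) hki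
      | exact absurd (congrArg (fun l => some (l, Kd.Y)) (Fin.ext (by omega))) hki
      | exact absurd (congrArg (fun l => some (l, Kd.V)) (Fin.ext (by omega))) hki'
      | exact absurd (congrArg (fun l => some (l, Kd.Y)) (Fin.ext (by omega))) hki'
  · cases t
    · rw [mem_va] at hi hk hk'
      rcases hi with rfl | rfl <;> rcases hk with rfl | rfl <;> rcases hk' with rfl | rfl <;>
        simp_all
    · rw [mem_vb] at hi hk hk'
      rcases hi with rfl | rfl <;> rcases hk with rfl | rfl <;> rcases hk' with rfl | rfl <;>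
        simp_all
    · rw [mem_bw] at hi hk hk'
      rcases hi with rfl | rfl <;> rcases hk with rfl | rfl <;> rcases hk' with rfl | rfl <;>
        simp_all
    · rw [mem_wy] at hi hk hk'
      rcases hi with rfl | rfl <;> rcases hk with rfl | rfl <;> rcases hk' with rfl | rfl <;>
        simp_all
    · rw [mem_ay] at hi hk hk'
      rcases hi with rfl | rfl <;> rcases hk with rfl | rfl <;> rcases hk' with rfl | rfl <;>
        simp_all

/-- The agent that drives the level `l`. -/
def up (l : Fin K) : Ag K := if h : l.val = 0 then none else some (⟨l.val - 1, by omega⟩, Kd.Y)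

theorem up_mem (l : Fin K) : Sum.inl l.castSucc ∈ INK K (up l) := by
  rw [mem_link]
  unfold up
  split_ifs with h
  · left
    exact ⟨rfl, h⟩
  · right; right
    refine ⟨_, rfl, ?_⟩
    show l.val = l.val - 1 + 1
    omega

theorem up_ne (l : Fin K) : up l ≠ some (l, Kd.V) := by
  unfold up
  split_ifs with h <;> simp

theorem eq_up {l : Fin K} {k : Ag K} (hk : k ≠ some (l, Kd.V))
    (h : Sum.inl l.castSucc ∈ INK K k) : k = up l :=
  atMostTwo (i := some (l, Kd.V)) (by rw [mem_link]; right; left; exact ⟨l, rfl, rfl⟩) hk (up_ne l)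
    h (up_mem l)

/-- The moves of the game between the states given by `x` and `x'`. -/
def Mv (x x' : Ag K → Bool) : Prop :=
  (gameK K).IsBestResponseMove (strat (INK K) x) (strat (INK K) x')

theorem PP_V (x : Ag K → Bool) (l : Fin K) : PP (INK K) (wK K) x (some (l, Kd.V)) =
    2 * wK K (Sum.inl l.castSucc) / (1 + oth (INK K) x (some (l, Kd.V)) (Sum.inl l.castSucc)) +
    (2 * wK K (Sum.inr (l, Sd.va)) /
      (1 + oth (INK K) x (some (l, Kd.V)) (Sum.inr (l, Sd.va))) +
    2 * wK K (Sum.inr (l, Sd.vb)) /
      (1 + oth (INK K) x (some (l, Kd.V)) (Sum.inr (l, Sd.vb)))) := by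
  unfold PP
  rw [show INK K (some (l, Kd.V)) =
    {Sum.inl l.castSucc, Sum.inr (l, Sd.va), Sum.inr (l, Sd.vb)} from rfl,
    sum_insert (by simp), sum_insert (by simp), sum_singleton]

theorem PP_A (x : Ag K → Bool) (l : Fin K) : PP (INK K) (wK K) x (some (l, Kd.A)) =
    2 * wK K (Sum.inr (l, Sd.va)) /
      (1 + oth (INK K) x (some (l, Kd.A)) (Sum.inr (l, Sd.va))) +
    2 * wK K (Sum.inr (l, Sd.ay)) /
      (1 + oth (INK K) x (some (l, Kd.A)) (Sum.inr (l, Sd.ay))) := by
  unfold PP
  rw [show INK K (some (l, Kd.A)) = {Sum.inr (l, Sd.va), Sum.inr (l, Sd.ay)} from rfl,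
    sum_insert (by simp), sum_singleton]

theorem PP_B (x : Ag K → Bool) (l : Fin K) : PP (INK K) (wK K) x (some (l, Kd.B)) =
    2 * wK K (Sum.inr (l, Sd.vb)) /
      (1 + oth (INK K) x (some (l, Kd.B)) (Sum.inr (l, Sd.vb))) +
    2 * wK K (Sum.inr (l, Sd.bw)) /
      (1 + oth (INK K) x (some (l, Kd.B)) (Sum.inr (l, Sd.bw))) := by
  unfold PP
  rw [show INK K (some (l, Kd.B)) = {Sum.inr (l, Sd.vb), Sum.inr (l, Sd.bw)} from rfl,
    sum_insert (by simp), sum_singleton]

theorem PP_W (x : Ag K → Bool) (l : Fin K) : PP (INK K) (wK K) x (some (l, Kd.W)) =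
    2 * wK K (Sum.inr (l, Sd.bw)) /
      (1 + oth (INK K) x (some (l, Kd.W)) (Sum.inr (l, Sd.bw))) +
    2 * wK K (Sum.inr (l, Sd.wy)) /
      (1 + oth (INK K) x (some (l, Kd.W)) (Sum.inr (l, Sd.wy))) := by
  unfold PP
  rw [show INK K (some (l, Kd.W)) = {Sum.inr (l, Sd.bw), Sum.inr (l, Sd.wy)} from rfl,
    sum_insert (by simp), sum_singleton]

theorem PP_Y (x : Ag K → Bool) (l : Fin K) : PP (INK K) (wK K) x (some (l, Kd.Y)) =
    2 * wK K (Sum.inr (l, Sd.wy)) /
      (1 + oth (INK K) x (some (l, Kd.Y)) (Sum.inr (l, Sd.wy))) +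
    (2 * wK K (Sum.inr (l, Sd.ay)) /
      (1 + oth (INK K) x (some (l, Kd.Y)) (Sum.inr (l, Sd.ay))) +
    2 * wK K (Sum.inl l.succ) / (1 + oth (INK K) x (some (l, Kd.Y)) (Sum.inl l.succ))) := by
  unfold PP
  rw [show INK K (some (l, Kd.Y)) =
    {Sum.inr (l, Sd.wy), Sum.inr (l, Sd.ay), Sum.inl l.succ} from rfl,
    sum_insert (by simp), sum_insert (by simp), sum_singleton]

theorem wK_succ (l : Fin K) : wK K (Sum.inl l.succ) = 8 ^ (K - l.val) := by
  have h1 : wK K (Sum.inl l.succ) = 8 * 8 ^ (K - (l.val + 1)) := rfl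
  have : K - l.val = (K - (l.val + 1)) + 1 := by omega
  rw [h1, this, pow_succ]
  ring

theorem pow_pos' (l : Fin K) : (0 : ℝ) < 8 ^ (K - l.val) := by positivity

theorem V_down {x : Ag K → Bool} {l : Fin K} (hu : x (up l) = true)
    (hx : x (some (l, Kd.V)) = true) : Mv x (Function.update x (some (l, Kd.V)) false) := by
  refine move_down hx ?_
  rw [PP_V]
  have h1 := term_le_of_busy (IN := INK K) (w := wK K) wK_pos (x := x) (up_ne l) hu (up_mem l)
  have h2 := term_le (IN := INK K) (w := wK K) wK_pos x (some (l, Kd.V)) (Sum.inr (l, Sd.va))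
  have h3 := term_le (IN := INK K) (w := wK K) wK_pos x (some (l, Kd.V)) (Sum.inr (l, Sd.vb))
  have e1 : wK K (Sum.inl l.castSucc) = 8 * 8 ^ (K - l.val) := rfl
  have e2 : wK K (Sum.inr (l, Sd.va)) = 3 * 8 ^ (K - l.val) := rfl
  have e3 : wK K (Sum.inr (l, Sd.vb)) = 4 * 8 ^ (K - l.val) := rfl
  have e4 : TK K (some (l, Kd.V)) = 22.5 * 8 ^ (K - l.val) := rfl
  have := pow_pos' l
  rw [e4]
  linarith

theorem V_up {x : Ag K → Bool} {l : Fin K} (hu : x (up l) = false)
    (hx : x (some (l, Kd.V)) = false) : Mv x (Function.update x (some (l, Kd.V)) true) := by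
  refine move_up hx ?_
  rw [PP_V]
  have h1 := term_ge_of_free (IN := INK K) (w := wK K) (x := x) (i := some (l, Kd.V))
    (e := Sum.inl l.castSucc) (fun k hk he => by rw [eq_up hk he]; exact hu)
  have h2 := term_ge (IN := INK K) (w := wK K) wK_pos x (some (l, Kd.V)) (Sum.inr (l, Sd.va))
    (fun k k' => atMostTwo (by rw [mem_va]; exact Or.inl rfl))
  have h3 := term_ge (IN := INK K) (w := wK K) wK_pos x (some (l, Kd.V)) (Sum.inr (l, Sd.vb))
    (fun k k' => atMostTwo (by rw [mem_vb]; exact Or.inl rfl))
  have e1 : wK K (Sum.inl l.castSucc) = 8 * 8 ^ (K - l.val) := rfl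
  have e2 : wK K (Sum.inr (l, Sd.va)) = 3 * 8 ^ (K - l.val) := rfl
  have e3 : wK K (Sum.inr (l, Sd.vb)) = 4 * 8 ^ (K - l.val) := rfl
  have e4 : TK K (some (l, Kd.V)) = 22.5 * 8 ^ (K - l.val) := rfl
  have := pow_pos' l
  rw [e4]
  linarith

theorem A_down {x : Ag K → Bool} {l : Fin K} (hu : x (some (l, Kd.V)) = true)
    (hx : x (some (l, Kd.A)) = true) : Mv x (Function.update x (some (l, Kd.A)) false) := by
  refine move_down hx ?_
  rw [PP_A]
  have h1 := term_le_of_busy (IN := INK K) (w := wK K) wK_pos (x := x) (i := some (l, Kd.A))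
    (k := some (l, Kd.V)) (e := Sum.inr (l, Sd.va)) (by simp) hu (by rw [mem_va]; exact Or.inl rfl)
  have h2 := term_le (IN := INK K) (w := wK K) wK_pos x (some (l, Kd.A)) (Sum.inr (l, Sd.ay))
  have e1 : wK K (Sum.inr (l, Sd.va)) = 3 * 8 ^ (K - l.val) := rfl
  have e2 : wK K (Sum.inr (l, Sd.ay)) = 2 * 8 ^ (K - l.val) := rfl
  have e4 : TK K (some (l, Kd.A)) = 7.5 * 8 ^ (K - l.val) := rfl
  have := pow_pos' l
  rw [e4]
  linarith

theorem A_up {x : Ag K → Bool} {l : Fin K} (hu : x (some (l, Kd.V)) = false)
    (hx : x (some (l, Kd.A)) = false) : Mv x (Function.update x (some (l, Kd.A)) true) := by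
  refine move_up hx ?_
  rw [PP_A]
  have h1 := term_ge_of_free (IN := INK K) (w := wK K) (x := x) (i := some (l, Kd.A))
    (e := Sum.inr (l, Sd.va)) (fun k hk he => by
      rw [mem_va] at he
      rcases he with rfl | rfl
      · exact hu
      · exact absurd rfl hk)
  have h2 := term_ge (IN := INK K) (w := wK K) wK_pos x (some (l, Kd.A)) (Sum.inr (l, Sd.ay))
    (fun k k' => atMostTwo (by rw [mem_ay]; exact Or.inl rfl))
  have e1 : wK K (Sum.inr (l, Sd.va)) = 3 * 8 ^ (K - l.val) := rfl
  have e2 : wK K (Sum.inr (l, Sd.ay)) = 2 * 8 ^ (K - l.val) := rfl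
  have e4 : TK K (some (l, Kd.A)) = 7.5 * 8 ^ (K - l.val) := rfl
  have := pow_pos' l
  rw [e4]
  linarith

theorem B_down {x : Ag K → Bool} {l : Fin K} (hu : x (some (l, Kd.V)) = true)
    (hx : x (some (l, Kd.B)) = true) : Mv x (Function.update x (some (l, Kd.B)) false) := by
  refine move_down hx ?_
  rw [PP_B]
  have h1 := term_le_of_busy (IN := INK K) (w := wK K) wK_pos (x := x) (i := some (l, Kd.B))
    (k := some (l, Kd.V)) (e := Sum.inr (l, Sd.vb)) (by simp) hu (by rw [mem_vb]; exact Or.inl rfl)
  have h2 := term_le (IN := INK K) (w := wK K) wK_pos x (some (l, Kd.B)) (Sum.inr (l, Sd.bw))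
  have e1 : wK K (Sum.inr (l, Sd.vb)) = 4 * 8 ^ (K - l.val) := rfl
  have e2 : wK K (Sum.inr (l, Sd.bw)) = 3 * 8 ^ (K - l.val) := rfl
  have e4 : TK K (some (l, Kd.B)) = 10.5 * 8 ^ (K - l.val) := rfl
  have := pow_pos' l
  rw [e4]
  linarith

theorem B_up {x : Ag K → Bool} {l : Fin K} (hu : x (some (l, Kd.V)) = false)
    (hx : x (some (l, Kd.B)) = false) : Mv x (Function.update x (some (l, Kd.B)) true) := by
  refine move_up hx ?_
  rw [PP_B]
  have h1 := term_ge_of_free (IN := INK K) (w := wK K) (x := x) (i := some (l, Kd.B))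
    (e := Sum.inr (l, Sd.vb)) (fun k hk he => by
      rw [mem_vb] at he
      rcases he with rfl | rfl
      · exact hu
      · exact absurd rfl hk)
  have h2 := term_ge (IN := INK K) (w := wK K) wK_pos x (some (l, Kd.B)) (Sum.inr (l, Sd.bw))
    (fun k k' => atMostTwo (by rw [mem_bw]; exact Or.inl rfl))
  have e1 : wK K (Sum.inr (l, Sd.vb)) = 4 * 8 ^ (K - l.val) := rfl
  have e2 : wK K (Sum.inr (l, Sd.bw)) = 3 * 8 ^ (K - l.val) := rfl
  have e4 : TK K (some (l, Kd.B)) = 10.5 * 8 ^ (K - l.val) := rfl
  have := pow_pos' l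
  rw [e4]
  linarith

theorem W_down {x : Ag K → Bool} {l : Fin K} (hu : x (some (l, Kd.B)) = true)
    (hx : x (some (l, Kd.W)) = true) : Mv x (Function.update x (some (l, Kd.W)) false) := by
  refine move_down hx ?_
  rw [PP_W]
  have h1 := term_le_of_busy (IN := INK K) (w := wK K) wK_pos (x := x) (i := some (l, Kd.W))
    (k := some (l, Kd.B)) (e := Sum.inr (l, Sd.bw)) (by simp) hu (by rw [mem_bw]; exact Or.inl rfl)
  have h2 := term_le (IN := INK K) (w := wK K) wK_pos x (some (l, Kd.W)) (Sum.inr (l, Sd.wy))
  have e1 : wK K (Sum.inr (l, Sd.bw)) = 3 * 8 ^ (K - l.val) := rfl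
  have e2 : wK K (Sum.inr (l, Sd.wy)) = 2 * 8 ^ (K - l.val) := rfl
  have e4 : TK K (some (l, Kd.W)) = 7.5 * 8 ^ (K - l.val) := rfl
  have := pow_pos' l
  rw [e4]
  linarith

theorem W_up {x : Ag K → Bool} {l : Fin K} (hu : x (some (l, Kd.B)) = false)
    (hx : x (some (l, Kd.W)) = false) : Mv x (Function.update x (some (l, Kd.W)) true) := by
  refine move_up hx ?_
  rw [PP_W]
  have h1 := term_ge_of_free (IN := INK K) (w := wK K) (x := x) (i := some (l, Kd.W))
    (e := Sum.inr (l, Sd.bw)) (fun k hk he => by
      rw [mem_bw] at he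
      rcases he with rfl | rfl
      · exact hu
      · exact absurd rfl hk)
  have h2 := term_ge (IN := INK K) (w := wK K) wK_pos x (some (l, Kd.W)) (Sum.inr (l, Sd.wy))
    (fun k k' => atMostTwo (by rw [mem_wy]; exact Or.inl rfl))
  have e1 : wK K (Sum.inr (l, Sd.bw)) = 3 * 8 ^ (K - l.val) := rfl
  have e2 : wK K (Sum.inr (l, Sd.wy)) = 2 * 8 ^ (K - l.val) := rfl
  have e4 : TK K (some (l, Kd.W)) = 7.5 * 8 ^ (K - l.val) := rfl
  have := pow_pos' l
  rw [e4]
  linarith

theorem Y_down {x : Ag K → Bool} {l : Fin K} (hW : x (some (l, Kd.W)) = true)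
    (hA : x (some (l, Kd.A)) = true) (hx : x (some (l, Kd.Y)) = true) :
    Mv x (Function.update x (some (l, Kd.Y)) false) := by
  refine move_down hx ?_
  rw [PP_Y]
  have h1 := term_le_of_busy (IN := INK K) (w := wK K) wK_pos (x := x) (i := some (l, Kd.Y))
    (k := some (l, Kd.W)) (e := Sum.inr (l, Sd.wy)) (by simp) hW (by rw [mem_wy]; exact Or.inl rfl)
  have h2 := term_le_of_busy (IN := INK K) (w := wK K) wK_pos (x := x) (i := some (l, Kd.Y))
    (k := some (l, Kd.A)) (e := Sum.inr (l, Sd.ay)) (by simp) hA (by rw [mem_ay]; exact Or.inl rfl)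
  have h3 := term_le (IN := INK K) (w := wK K) wK_pos x (some (l, Kd.Y)) (Sum.inl l.succ)
  have e1 : wK K (Sum.inr (l, Sd.wy)) = 2 * 8 ^ (K - l.val) := rfl
  have e2 : wK K (Sum.inr (l, Sd.ay)) = 2 * 8 ^ (K - l.val) := rfl
  have e3 := wK_succ l
  have e4 : TK K (some (l, Kd.Y)) = 6.5 * 8 ^ (K - l.val) := rfl
  have := pow_pos' l
  rw [e4]
  linarith

theorem Y_up_of_A {x : Ag K → Bool} {l : Fin K} (hA : x (some (l, Kd.A)) = false)
    (hx : x (some (l, Kd.Y)) = false) : Mv x (Function.update x (some (l, Kd.Y)) true) := by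
  refine move_up hx ?_
  rw [PP_Y]
  have h1 := term_ge (IN := INK K) (w := wK K) wK_pos x (some (l, Kd.Y)) (Sum.inr (l, Sd.wy))
    (fun k k' => atMostTwo (by rw [mem_wy]; exact Or.inr rfl))
  have h2 := term_ge_of_free (IN := INK K) (w := wK K) (x := x) (i := some (l, Kd.Y))
    (e := Sum.inr (l, Sd.ay)) (fun k hk he => by
      rw [mem_ay] at he
      rcases he with rfl | rfl
      · exact hA
      · exact absurd rfl hk)
  have h3 := term_ge (IN := INK K) (w := wK K) wK_pos x (some (l, Kd.Y)) (Sum.inl l.succ)
    (fun k k' => atMostTwo (by rw [mem_link]; right; right; exact ⟨l, rfl, rfl⟩))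
  have e1 : wK K (Sum.inr (l, Sd.wy)) = 2 * 8 ^ (K - l.val) := rfl
  have e2 : wK K (Sum.inr (l, Sd.ay)) = 2 * 8 ^ (K - l.val) := rfl
  have e3 := wK_succ l
  have e4 : TK K (some (l, Kd.Y)) = 6.5 * 8 ^ (K - l.val) := rfl
  have := pow_pos' l
  rw [e4]
  linarith

theorem Y_up_of_W {x : Ag K → Bool} {l : Fin K} (hW : x (some (l, Kd.W)) = false)
    (hx : x (some (l, Kd.Y)) = false) : Mv x (Function.update x (some (l, Kd.Y)) true) := by
  refine move_up hx ?_
  rw [PP_Y]
  have h1 := term_ge_of_free (IN := INK K) (w := wK K) (x := x) (i := some (l, Kd.Y))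
    (e := Sum.inr (l, Sd.wy)) (fun k hk he => by
      rw [mem_wy] at he
      rcases he with rfl | rfl
      · exact hW
      · exact absurd rfl hk)
  have h2 := term_ge (IN := INK K) (w := wK K) wK_pos x (some (l, Kd.Y)) (Sum.inr (l, Sd.ay))
    (fun k k' => atMostTwo (by rw [mem_ay]; exact Or.inr rfl))
  have h3 := term_ge (IN := INK K) (w := wK K) wK_pos x (some (l, Kd.Y)) (Sum.inl l.succ)
    (fun k k' => atMostTwo (by rw [mem_link]; right; right; exact ⟨l, rfl, rfl⟩))
  have e1 : wK K (Sum.inr (l, Sd.wy)) = 2 * 8 ^ (K - l.val) := rfl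
  have e2 : wK K (Sum.inr (l, Sd.ay)) = 2 * 8 ^ (K - l.val) := rfl
  have e3 := wK_succ l
  have e4 : TK K (some (l, Kd.Y)) = 6.5 * 8 ^ (K - l.val) := rfl
  have := pow_pos' l
  rw [e4]
  linarith

/-! ### The path -/

/-- Chains of moves. -/
inductive Chain : ℕ → (Ag K → Bool) → (Ag K → Bool) → Prop
  | nil (x : Ag K → Bool) : Chain 0 x x
  | cons {n : ℕ} {x y z : Ag K → Bool} : Mv x y → Chain n y z → Chain (n + 1) x z

theorem Chain.trans {n m : ℕ} {x y z : Ag K → Bool} (h : Chain n x y) (h' : Chain m y z) :
    Chain (n + m) x z := by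
  induction h with
  | nil x => rwa [Nat.zero_add]
  | cons hm _ ih =>
    rw [Nat.add_right_comm]
    exact Chain.cons hm (ih h')

theorem Chain.exists_path {n : ℕ} {x y : Ag K → Bool} (h : Chain n x y) :
    ∃ p : ℕ → (Ag K → Bool), p 0 = x ∧ ∀ t < n, Mv (p t) (p (t + 1)) := by
  induction h with
  | nil x => exact ⟨fun _ => x, rfl, fun t ht => absurd ht (Nat.not_lt_zero _)⟩
  | @cons n x y z hm _ ih =>
    obtain ⟨p, hp0, hp⟩ := ih
    refine ⟨fun t => Nat.casesOn t x p, rfl, ?_⟩
    intro t ht
    rcases t with _ | t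
    · show Mv x (p 0)
      rw [hp0]
      exact hm
    · exact hp t (by omega)

/-- The values on a level. -/
def lv (v a b w y : Bool) : Kd → Bool
  | Kd.V => v
  | Kd.A => a
  | Kd.B => b
  | Kd.W => w
  | Kd.Y => y

/-- Set the values on the level `l`. -/
def setL (x : Ag K → Bool) (l : Fin K) (f : Kd → Bool) : Ag K → Bool
  | none => x none
  | some (m, k) => if m = l then f k else x (some (m, k))

/-- Set the value of the agent `V` of the level `l`. -/
def setV (x : Ag K → Bool) (l : ℕ) (c : Bool) : Ag K → Bool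
  | none => x none
  | some (m, Kd.V) => if m.val = l then c else x (some (m, Kd.V))
  | some (m, k) => x (some (m, k))

theorem setL_self (x : Ag K → Bool) (l : Fin K) (f : Kd → Bool) (k : Kd) :
    setL x l f (some (l, k)) = f k := by
  simp [setL]

theorem setL_of_ne (x : Ag K → Bool) {l m : Fin K} (h : m ≠ l) (f : Kd → Bool) (k : Kd) :
    setL x l f (some (m, k)) = x (some (m, k)) := by
  simp [setL, h]

theorem setL_eq {x : Ag K → Bool} {l : Fin K} {f : Kd → Bool}
    (h : ∀ k, x (some (l, k)) = f k) : setL x l f = x := by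
  funext a
  rcases a with _ | ⟨m, k⟩
  · rfl
  · by_cases hm : m = l
    · subst hm
      rw [setL_self, h]
    · rw [setL_of_ne _ hm]

theorem update_setL (x : Ag K → Bool) (l : Fin K) (f f' : Kd → Bool) (k : Kd) (c : Bool)
    (h : Function.update f k c = f') :
    Function.update (setL x l f) (some (l, k)) c = setL x l f' := by
  subst h
  funext a
  rcases a with _ | ⟨m, k'⟩
  · rw [Function.update_of_ne (by simp)]
    rfl
  · by_cases hm : m = l
    · subst hm
      by_cases hk : k' = k
      · subst hk
        rw [Function.update_self, setL_self, Function.update_self]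
      · rw [Function.update_of_ne (by simp [hk]), setL_self, setL_self,
          Function.update_of_ne hk]
    · rw [Function.update_of_ne (by simp [hm]), setL_of_ne _ hm, setL_of_ne _ hm]

theorem setV_setL (x : Ag K → Bool) (l : Fin K) (f : Kd → Bool) (c : Bool) :
    setV (setL x l f) (l.val + 1) c = setL (setV x (l.val + 1) c) l f := by
  funext a
  rcases a with _ | ⟨m, k⟩
  · rfl
  · by_cases hm : m = l
    · subst hm
      cases k <;> simp [setV, setL]
    · cases k <;> simp [setV, setL, hm]

theorem setL_eq_setV {x : Ag K → Bool} {l : Fin K} {f : Kd → Bool} {c : Bool} (hV : f Kd.V = c)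
    (h : ∀ k, k ≠ Kd.V → x (some (l, k)) = f k) : setL x l f = setV x l.val c := by
  funext a
  rcases a with _ | ⟨m, k⟩
  · rfl
  · by_cases hm : m = l
    · subst hm
      rw [setL_self]
      cases k
      · simp [setV, hV]
      all_goals
        show _ = x _
        rw [h _ (by simp)]
    · rw [setL_of_ne _ hm]
      cases k
      · have : m.val ≠ l.val := fun he => hm (Fin.ext he)
        simp [setV, this]
      all_goals rfl

theorem setV_setV (x : Ag K → Bool) (n : ℕ) (c c' : Bool) (h : ∀ m : Fin K, m.val = n →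
    x (some (m, Kd.V)) = c') : setV (setV x n c) n c' = x := by
  funext a
  rcases a with _ | ⟨m, k⟩
  · rfl
  · cases k
    · by_cases hm : m.val = n
      · simp [setV, hm, h m hm]
      · simp [setV, hm]
    all_goals simp [setV]

/-- The idle values of a level. -/
def Idle (x : Ag K → Bool) (l : Fin K) : Prop :=
  ∀ k, x (some (l, k)) = lv true true false true false k

/-- The values of a level with `V` down. -/
def Low (x : Ag K → Bool) (l : Fin K) : Prop :=
  ∀ k, x (some (l, k)) = lv false true false true false k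

/-- The agent that drives the level `l`. -/
def drv (K : ℕ) (l : ℕ) : Ag K :=
  if h : 0 < l ∧ l - 1 < K then some (⟨l - 1, h.2⟩, Kd.Y) else none

theorem drv_eq_up (l : Fin K) : drv K l.val = up l := by
  unfold drv up
  have := l.isLt
  by_cases h : l.val = 0
  · rw [dif_neg (by omega), dif_pos h]
  · rw [dif_pos (by omega), dif_neg h]

theorem drv_succ (l : Fin K) : drv K (l.val + 1) = some (l, Kd.Y) := by
  unfold drv
  have := l.isLt
  rw [dif_pos (by omega)]
  simp

theorem setL_up (x : Ag K → Bool) (l : Fin K) (f : Kd → Bool) :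
    setL x l f (up l) = x (up l) := by
  unfold up
  split_ifs with h
  · rfl
  · refine setL_of_ne x ?_ f _
    intro he
    have := congrArg Fin.val he
    simp only at this
    omega

theorem setV_up (x : Ag K → Bool) (l : Fin K) (n : ℕ) (c : Bool) :
    setV x n c (up l) = x (up l) := by
  unfold up
  split_ifs with h
  · rfl
  · rfl

theorem mv {x y z : Ag K → Bool} {n : ℕ} (h : Mv x y) (h' : Chain n y z) : Chain (n + 1) x z :=
  Chain.cons h h'

/-- The lengths of the paths when the driver of a level goes up or down. -/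
def rf : ℕ → ℕ × ℕ
  | 0 => (0, 0)
  | j + 1 => (5 + (rf j).1 + (rf j).2, 7 + (rf j).1 + (rf j).2)

theorem step {x y : Ag K → Bool} {l : Fin K} {f f' : Kd → Bool} (k : Kd) (c : Bool)
    (h : Mv (setL x l f) (Function.update (setL x l f) (some (l, k)) c))
    (hf : Function.update f k c = f') (hy : setL x l f' = y) : Chain 1 (setL x l f) y := by
  rw [update_setL x l f f' k c hf] at h
  subst hy
  exact Chain.cons h (Chain.nil _)

theorem upd_lv_V (v a b w y c : Bool) : Function.update (lv v a b w y) Kd.V c = lv c a b w y := by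
  funext k; cases k <;> simp [Function.update, lv]

theorem upd_lv_A (v a b w y c : Bool) : Function.update (lv v a b w y) Kd.A c = lv v c b w y := by
  funext k; cases k <;> simp [Function.update, lv]

theorem upd_lv_B (v a b w y c : Bool) : Function.update (lv v a b w y) Kd.B c = lv v a c w y := by
  funext k; cases k <;> simp [Function.update, lv]

theorem upd_lv_W (v a b w y c : Bool) : Function.update (lv v a b w y) Kd.W c = lv v a b c y := by
  funext k; cases k <;> simp [Function.update, lv]

theorem upd_lv_Y (v a b w y c : Bool) : Function.update (lv v a b w y) Kd.Y c = lv v a b w c := by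
  funext k; cases k <;> simp [Function.update, lv]

theorem rise_fall (j : ℕ) : ∀ l : ℕ, l + j = K →
    (∀ x : Ag K → Bool, x (drv K l) = true → (∀ m : Fin K, l ≤ m.val → Idle x m) →
      Chain (rf j).1 x (setV x l false)) ∧
    (∀ x : Ag K → Bool, x (drv K l) = false → (∀ m : Fin K, l = m.val → Low x m) →
      (∀ m : Fin K, l < m.val → Idle x m) → Chain (rf j).2 x (setV x l true)) := by
  induction j with
  | zero =>
    intro l hl
    have h : ∀ (x : Ag K → Bool) (c : Bool), setV x l c = x := by
      intro x c
      funext a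
      rcases a with _ | ⟨m, k⟩
      · rfl
      · cases k
        · have : m.val ≠ l := by have := m.isLt; omega
          simp [setV, this]
        all_goals simp [setV]
    refine ⟨fun x _ _ => ?_, fun x _ _ _ => ?_⟩
    · rw [h]; exact Chain.nil x
    · rw [h]; exact Chain.nil x
  | succ j ih =>
    intro l hl
    have hlK : l < K := by omega
    obtain ⟨ihR, ihF⟩ := ih (l + 1) (by omega)
    -- the level as an element of `Fin K`
    obtain ⟨l', rfl⟩ : ∃ l' : Fin K, l'.val = l := ⟨⟨l, hlK⟩, rfl⟩
    rw [drv_eq_up]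
    rw [drv_succ] at ihR ihF
    -- the four facts about the next level
    have hR : ∀ (x : Ag K → Bool) (v a b w : Bool), (∀ m : Fin K, l'.val < m.val → Idle x m) →
        Chain (rf j).1 (setL x l' (lv v a b w true))
          (setL (setV x (l'.val + 1) false) l' (lv v a b w true)) := by
      intro x v a b w hi
      rw [← setV_setL]
      refine ihR _ (by rw [setL_self]; rfl) ?_
      intro m hm k
      rw [setL_of_ne _ (by intro he; rw [he] at hm; omega)]
      exact hi m (by omega) k
    have hF : ∀ (x : Ag K → Bool) (v a b w : Bool), (∀ m : Fin K, l'.val < m.val → Idle x m) →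
        Chain (rf j).2 (setL (setV x (l'.val + 1) false) l' (lv v a b w false))
          (setL x l' (lv v a b w false)) := by
      intro x v a b w hi
      have h1 := ihF (setL (setV x (l'.val + 1) false) l' (lv v a b w false))
        (by rw [setL_self]; rfl) ?_ ?_
      · rw [setV_setL, setV_setV] at h1
        · exact h1
        · intro m hm
          rw [hi m (by omega)]
          rfl
      · intro m hm k
        rw [setL_of_ne _ (by intro he; rw [he] at hm; omega)]
        have h2 := hi m (by omega) k
        cases k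
        · simp [setV, hm, lv]
        all_goals
          show x _ = _
          rw [h2]
          rfl
      · intro m hm k
        rw [setL_of_ne _ (by intro he; rw [he] at hm; omega)]
        have h2 := hi m (by omega) k
        cases k
        · have : m.val ≠ l'.val + 1 := by omega
          simp only [setV, this, if_false]
          exact h2
        all_goals
          show x _ = _
          rw [h2]
    constructor
    · intro x hu hi
      have hi' : ∀ m : Fin K, l'.val < m.val → Idle x m := fun m hm => hi m (by omega)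
      have e0 : setL x l' (lv true true false true false) = x := setL_eq (hi l' le_rfl)
      have eN : setL x l' (lv false true false true false) = setV x l'.val false := by
        refine setL_eq_setV rfl fun k hk => ?_
        rw [hi l' le_rfl k]
        cases k
        · exact absurd rfl hk
        all_goals rfl
      have c1 : Chain 1 (setL x l' (lv true true false true false))
          (setL x l' (lv true false false true false)) :=
        step Kd.A false (A_down (by rw [setL_self]; rfl) (by rw [setL_self]; rfl))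
          (upd_lv_A ..) rfl
      have c2 : Chain 1 (setL x l' (lv true false false true false))
          (setL x l' (lv true false false true true)) :=
        step Kd.Y true (Y_up_of_A (by rw [setL_self]; rfl) (by rw [setL_self]; rfl))
          (upd_lv_Y ..) rfl
      have c3 := hR x true false false true hi'
      have c4 : Chain 1 (setL (setV x (l'.val + 1) false) l' (lv true false false true true))
          (setL (setV x (l'.val + 1) false) l' (lv false false false true true)) :=
        step Kd.V false (V_down (by rw [setL_up, setV_up]; exact hu) (by rw [setL_self]; rfl))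
          (upd_lv_V ..) rfl
      have c5 : Chain 1 (setL (setV x (l'.val + 1) false) l' (lv false false false true true))
          (setL (setV x (l'.val + 1) false) l' (lv false true false true true)) :=
        step Kd.A true (A_up (by rw [setL_self]; rfl) (by rw [setL_self]; rfl))
          (upd_lv_A ..) rfl
      have c6 : Chain 1 (setL (setV x (l'.val + 1) false) l' (lv false true false true true))
          (setL (setV x (l'.val + 1) false) l' (lv false true false true false)) :=
        step Kd.Y false (Y_down (by rw [setL_self]; rfl) (by rw [setL_self]; rfl)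
          (by rw [setL_self]; rfl)) (upd_lv_Y ..) rfl
      have c7 := hF x false true false true hi'
      have c := (((((c1.trans c2).trans c3).trans c4).trans c5).trans c6).trans c7
      rw [e0, eN] at c
      have hlen : (rf (j + 1)).1 = 1 + 1 + (rf j).1 + 1 + 1 + 1 + (rf j).2 := by
        show 5 + (rf j).1 + (rf j).2 = _
        omega
      rw [hlen]
      exact c
    · intro x hu hlow hi
      have e0 : setL x l' (lv false true false true false) = x := setL_eq (hlow l' rfl)
      have eN : setL x l' (lv true true false true false) = setV x l'.val true := by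
        refine setL_eq_setV rfl fun k hk => ?_
        rw [hlow l' rfl k]
        cases k
        · exact absurd rfl hk
        all_goals rfl
      have c1 : Chain 1 (setL x l' (lv false true false true false))
          (setL x l' (lv false true true true false)) :=
        step Kd.B true (B_up (by rw [setL_self]; rfl) (by rw [setL_self]; rfl))
          (upd_lv_B ..) rfl
      have c2 : Chain 1 (setL x l' (lv false true true true false))
          (setL x l' (lv false true true false false)) :=
        step Kd.W false (W_down (by rw [setL_self]; rfl) (by rw [setL_self]; rfl))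
          (upd_lv_W ..) rfl
      have c3 : Chain 1 (setL x l' (lv false true true false false))
          (setL x l' (lv false true true false true)) :=
        step Kd.Y true (Y_up_of_W (by rw [setL_self]; rfl) (by rw [setL_self]; rfl))
          (upd_lv_Y ..) rfl
      have c4 := hR x false true true false hi
      have c5 : Chain 1 (setL (setV x (l'.val + 1) false) l' (lv false true true false true))
          (setL (setV x (l'.val + 1) false) l' (lv true true true false true)) :=
        step Kd.V true (V_up (by rw [setL_up, setV_up]; exact hu) (by rw [setL_self]; rfl))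
          (upd_lv_V ..) rfl
      have c6 : Chain 1 (setL (setV x (l'.val + 1) false) l' (lv true true true false true))
          (setL (setV x (l'.val + 1) false) l' (lv true true false false true)) :=
        step Kd.B false (B_down (by rw [setL_self]; rfl) (by rw [setL_self]; rfl))
          (upd_lv_B ..) rfl
      have c7 : Chain 1 (setL (setV x (l'.val + 1) false) l' (lv true true false false true))
          (setL (setV x (l'.val + 1) false) l' (lv true true false true true)) :=
        step Kd.W true (W_up (by rw [setL_self]; rfl) (by rw [setL_self]; rfl))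
          (upd_lv_W ..) rfl
      have c8 : Chain 1 (setL (setV x (l'.val + 1) false) l' (lv true true false true true))
          (setL (setV x (l'.val + 1) false) l' (lv true true false true false)) :=
        step Kd.Y false (Y_down (by rw [setL_self]; rfl) (by rw [setL_self]; rfl)
          (by rw [setL_self]; rfl)) (upd_lv_Y ..) rfl
      have c9 := hF x true true false true hi
      have c := (((((((c1.trans c2).trans c3).trans c4).trans c5).trans c6).trans c7).trans
        c8).trans c9
      rw [e0, eN] at c
      have hlen : (rf (j + 1)).2 = 1 + 1 + 1 + (rf j).1 + 1 + 1 + 1 + 1 + (rf j).2 := by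
        show 7 + (rf j).1 + (rf j).2 = _
        omega
      rw [hlen]
      exact c

theorem rf_ge (j : ℕ) : 2 ^ j ≤ (rf j).1 + 1 ∧ 2 ^ j ≤ (rf j).2 + 1 := by
  induction j with
  | zero => simp [rf]
  | succ j ih =>
    show 2 ^ (j + 1) ≤ 5 + (rf j).1 + (rf j).2 + 1 ∧ 2 ^ (j + 1) ≤ 7 + (rf j).1 + (rf j).2 + 1
    rw [pow_succ]
    omega

/-- The starting state. -/
def start (K : ℕ) : Ag K → Bool
  | none => true
  | some (_, k) => lv true true false true false k

theorem hasPath (K : ℕ) : (gameK K).HasPath (rf K).1 := by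
  have h := ((rise_fall (K := K) K 0 (Nat.zero_add K)).1 (start K)
    (by unfold drv; simp [start]) (fun m _ k => rfl))
  obtain ⟨p, hp0, hp⟩ := h.exists_path
  exact ⟨fun t => strat (INK K) (p t), fun j => feasible_strat _ _, hp⟩

theorem card_Kd : Fintype.card Kd = 5 := rfl

theorem card_Sd : Fintype.card Sd = 5 := rfl

end network

/-- **Exponentially long best-response paths exist.** There is a constant `c > 0` such that there
are budgeted sharing games with an arbitrarily large total number `n + m` of agents and sites that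
have a best-response path with at least `2 ^ (c (n + m))` moves. -/
theorem result : ∃ c : ℝ, 0 < c ∧ ∀ N : ℕ, ∃ (U H : Type) (_ : Fintype U) (_ : Fintype H)
    (g : SharingGame U H) (L : ℕ), N ≤ Fintype.card U + Fintype.card H ∧
      (2 : ℝ) ^ (c * ((Fintype.card U : ℝ) + (Fintype.card H : ℝ))) ≤ L ∧ g.HasPath L := by
  refine ⟨1 / 19, by norm_num, fun N => ?_⟩
  refine ⟨Ag (N + 1), Es (N + 1) ⊕ Ag (N + 1), inferInstance, inferInstance, gameK (N + 1),
    (rf (N + 1)).1, ?_, ?_, hasPath (N + 1)⟩
  · simp only [Fintype.card_sum, Fintype.card_option, Fintype.card_prod, Fintype.card_fin,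
      card_Kd, card_Sd]
    omega
  · have h1 : ((Fintype.card (Ag (N + 1)) : ℝ) + (Fintype.card (Es (N + 1) ⊕ Ag (N + 1)) : ℝ)) ≤
        19 * ((N + 1 : ℕ) : ℝ) := by
      simp only [Fintype.card_sum, Fintype.card_option, Fintype.card_prod, Fintype.card_fin,
        card_Kd, card_Sd]
      push_cast
      nlinarith [(Nat.cast_nonneg N : (0 : ℝ) ≤ N)]
    have h2 : 2 ^ (N + 1) ≤ (rf (N + 1)).1 := by
      have h3 := rf_ge N
      show 2 ^ (N + 1) ≤ 5 + (rf N).1 + (rf N).2
      rw [pow_succ]
      omega
    calc (2 : ℝ) ^ (1 / 19 * ((Fintype.card (Ag (N + 1)) : ℝ) +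
          (Fintype.card (Es (N + 1) ⊕ Ag (N + 1)) : ℝ)))
        ≤ (2 : ℝ) ^ (((N + 1 : ℕ) : ℝ)) := by
          refine Real.rpow_le_rpow_of_exponent_le (by norm_num) ?_
          linarith
      _ = ((2 ^ (N + 1) : ℕ) : ℝ) := by
          rw [Real.rpow_natCast]
          push_cast
          rfl
      _ ≤ ((rf (N + 1)).1 : ℝ) := by exact_mod_cast h2

end Pool.Agent.Results.MP_2a1065_lc.ExponentialPath
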